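import Mathlib

namespace Pool.Agent.Results.MP_cc6d20_al.SemiSep

/-- Terms in the left division `L` and the right division `R`. -/
inductive Tm
  | v : ℕ → Tm
  | L : Tm → Tm → Tm
  | R : Tm → Tm → Tm

def Tm.eval {S : Type} (l r : S → S → S) (a : ℕ → S) : Tm → S
  | .v i => a i
  | .L s t => l (s.eval l r a) (t.eval l r a)
  | .R s t => r (s.eval l r a) (t.eval l r a)

def Tm.hasL : Tm → Prop
  | .v _ => False
  | .L _ _ => True
  | .R s t => s.hasL ∨ t.hasL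

def Tm.hasR : Tm → Prop
  | .v _ => False
  | .L s t => s.hasR ∨ t.hasR
  | .R _ _ => True

/-- Both operations occur in the identity. -/
def Mixed (e : Tm × Tm) : Prop := (e.1.hasL ∨ e.2.hasL) ∧ (e.1.hasR ∨ e.2.hasR)

/-- `(S, l, r)` is the division bimagma of an inverse semigroup on `S`. -/
def IsDiv {S : Type} (l r : S → S → S) : Prop :=
  ∃ (_ : Semigroup S) (n : S → S), (∀ x y, (x * y * x = x ∧ y * x * y = y) ↔ y = n x) ∧
    (∀ x y, l x y = n x * y) ∧ ∀ x y, r x y = x * n y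

section
variable {A : Type} {l r m : A → A → A} {n : A → A}

structure Ax0 (l r : A → A → A) : Prop where
  a0 : ∀ x y z, l (r x y) z = r y (l z x)
  a1 : ∀ x, l (r x x) x = x
  a2 : ∀ x y, r (r x x) (r y y) = r (r y y) (r x x)
  a3 : ∀ x y z w, r x (r y (r z w)) = r (r x (r w z)) y
  a4 : ∀ x y, r (r x x) (r y x) = r x y
  a5 : ∀ x y, l (l x x) (l y y) = l (l y y) (l x x)
  a6 : ∀ w z y x, l (l (l w z) y) x = l y (l (l z w) x)
  a7 : ∀ x y, l (l x y) (l x x) = l y x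

structure Ax (l r : A → A → A) (n : A → A) (m : A → A → A) : Prop extends Ax0 l r where
  a8 : ∀ x, l x (r x x) = n x
  a9 : ∀ x y, r x (n y) = m x y

lemma e10 (H : Ax l r n m) (x0 x1 x2 : A) : (l (r x0 x1) x2) = (r x1 (l x2 x0)) :=
  (H.a0 x0 x1 x2)
lemma e11 (H : Ax l r n m) (x0 : A) : (r x0 (l x0 x0)) = x0 :=
  (e10 H x0 x0 x0).symm.trans
    ((H.a1 x0))
lemma e12 (H : Ax l r n m) (x0 x1 : A) : (r (r x0 x0) (r x1 x1)) = (r (r x1 x1) (r x0 x0)) :=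
  (H.a2 x0 x1)
lemma e13 (H : Ax l r n m) (x0 x1 x2 x3 : A) : (r (r x0 (r x1 x2)) x3) = (r x0 (r x3 (r x2 x1))) :=
  (H.a3 x0 x3 x2 x1).symm
lemma e14 (H : Ax l r n m) (x0 x1 : A) : (r (r x0 x0) (r x1 x0)) = (r x0 x1) :=
  (H.a4 x0 x1)
lemma e15 (H : Ax l r n m) (x0 x1 : A) : (l (l x0 x0) (l x1 x1)) = (l (l x1 x1) (l x0 x0)) :=
  (H.a5 x0 x1)
lemma e16 (H : Ax l r n m) (x0 x1 x2 x3 : A) : (l (l (l x0 x1) x2) x3) = (l x2 (l (l x1 x0) x3)) :=
  (H.a6 x0 x1 x2 x3)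
lemma e17 (H : Ax l r n m) (x0 x1 : A) : (l (l x0 x1) (l x0 x0)) = (l x1 x0) :=
  (H.a7 x0 x1)
lemma e18 (H : Ax l r n m) (x0 : A) : (l x0 (r x0 x0)) = (n x0) :=
  (H.a8 x0)
lemma e19 (H : Ax l r n m) (x0 x1 : A) : (r x0 (n x1)) = (m x0 x1) :=
  (H.a9 x0 x1)
lemma e20 (H : Ax l r n m) (x0 : A) : (n (r x0 x0)) = (r x0 x0) :=
  (e18 H (r x0 x0)).symm.trans
    ((congrArg (fun h => (l (r x0 x0) h)) (e12 H x0 x0)).trans
    ((congrArg (fun h => (l (r x0 x0) h)) (e14 H x0 x0)).trans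
    ((e10 H x0 x0 (r x0 x0)).trans
    ((congrArg (fun h => (r x0 h)) (e10 H x0 x0 x0)).trans
    ((congrArg (fun h => (r x0 h)) (e11 H x0)))))))
lemma e21 (H : Ax l r n m) (x0 : A) : (l (n x0) (l x0 x0)) = x0 :=
  (congrArg (fun h => (l h (l x0 x0))) (e18 H x0).symm).trans
    ((e17 H x0 (r x0 x0)).trans
    ((e10 H x0 x0 x0).trans
    ((e11 H x0))))
lemma e23 (H : Ax l r n m) (x0 x1 : A) : (r x0 (r x1 x1)) = (m x0 (r x1 x1)) :=
  (congrArg (fun h => (r x0 h)) (e20 H x1).symm).trans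
    ((e19 H x0 (r x1 x1)))
lemma e24 (H : Ax l r n m) (x0 x1 : A) : (m (r x0 x0) (r x1 x1)) = (m (r x1 x1) (r x0 x0)) :=
  (e23 H (r x0 x0) x1).symm.trans
    ((e12 H x0 x1).trans
    ((e23 H (r x1 x1) x0)))
lemma e25 (H : Ax l r n m) (x0 x1 : A) : (r (l x0 x0) (l x1 x0)) = (l x0 x1) :=
  (e10 H x0 (l x0 x0) x1).symm.trans
    ((congrArg (fun h => (l h x1)) (e11 H x0)))
lemma e26 (H : Ax l r n m) (x0 : A) : (m (r x0 x0) x0) = x0 :=
  (e19 H (r x0 x0) x0).symm.trans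
    ((congrArg (fun h => (r (r x0 h) (n x0))) (e11 H x0).symm).trans
    ((congrArg (fun h => (r (r x0 h) (n x0))) (e10 H x0 x0 x0).symm).trans
    ((congrArg (fun h => (r h (n x0))) (e10 H x0 x0 (r x0 x0)).symm).trans
    ((congrArg (fun h => (r (l (r x0 x0) (r x0 x0)) h)) (e18 H x0).symm).trans
    ((e25 H (r x0 x0) x0).trans
    ((e10 H x0 x0 x0).trans
    ((e11 H x0))))))))
lemma e28 (H : Ax l r n m) (x0 x1 : A) : (r x0 (l x1 x1)) = (m x0 (l x1 x1)) :=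
  (congrArg (fun h => (r x0 h)) (e25 H x1 x1).symm).trans
    ((e23 H x0 (l x1 x1)).trans
    ((congrArg (fun h => (m x0 h)) (e25 H x1 x1))))
lemma e29 (H : Ax l r n m) (x0 : A) : (m x0 (l x0 x0)) = x0 :=
  (e28 H x0 x0).symm.trans
    ((e11 H x0))
lemma e31 (H : Ax l r n m) (x0 x1 x2 : A) : (l (l (n x0) x1) x2) = (l x1 (l x0 x2)) :=
  (congrArg (fun h => (l (l h x1) x2)) (e18 H x0).symm).trans
    ((e16 H x0 (r x0 x0) x1 x2).trans
    ((congrArg (fun h => (l x1 (l h x2))) (e10 H x0 x0 x0)).trans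
    ((congrArg (fun h => (l x1 (l h x2))) (e28 H x0 x0)).trans
    ((congrArg (fun h => (l x1 (l h x2))) (e29 H x0))))))
lemma e32 (H : Ax l r n m) (x0 x1 x2 : A) : (r (n x0) (l x1 x2)) = (l (m x2 x0) x1) :=
  (e10 H x2 (n x0) x1).symm.trans
    ((congrArg (fun h => (l h x1)) (e19 H x2 x0)))
lemma e35 (H : Ax l r n m) (x0 : A) : (m (r x0 x0) (r x0 x0)) = (r x0 x0) :=
  (e23 H (r x0 x0) x0).symm.trans
    ((e14 H x0 x0))
lemma e36 (H : Ax l r n m) (x0 x1 : A) : (l (l x0 x0) (l x0 x1)) = (l x0 x1) :=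
  (e25 H (l x0 x0) (l x0 x1)).symm.trans
    ((congrArg (fun h => (r (l (l x0 x0) (l x0 x0)) h)) (e17 H x0 x1)).trans
    ((congrArg (fun h => (r h (l x1 x0))) (e17 H x0 x0)).trans
    ((e25 H x0 x1))))
lemma e37 (H : Ax l r n m) (x0 : A) : (l (l x0 x0) (n x0)) = (n x0) :=
  (congrArg (fun h => (l (l x0 x0) h)) (e18 H x0).symm).trans
    ((e36 H x0 (r x0 x0)).trans
    ((e18 H x0)))
lemma e38 (H : Ax l r n m) (x0 : A) : (m (l (n x0) (n x0)) x0) = x0 :=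
  (e19 H (l (n x0) (n x0)) x0).symm.trans
    ((congrArg (fun h => (r (l (n x0) (n x0)) h)) (e37 H x0).symm).trans
    ((e25 H (n x0) (l x0 x0)).trans
    ((e21 H x0))))
lemma e39 (H : Ax l r n m) (x0 : A) : (r (l x0 x0) x0) = (n x0) :=
  (congrArg (fun h => (r h x0)) (e17 H x0 x0).symm).trans
    ((congrArg (fun h => (r (l (l x0 x0) (l x0 x0)) h)) (e21 H x0).symm).trans
    ((e25 H (l x0 x0) (n x0)).trans
    ((e37 H x0))))
lemma e40 (H : Ax l r n m) (x0 : A) : (n (n x0)) = x0 :=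
  (e39 H (n x0)).symm.trans
    ((e19 H (l (n x0) (n x0)) x0).trans
    ((e38 H x0)))
lemma e42 (H : Ax l r n m) (x0 x1 : A) : (m x0 (n x1)) = (r x0 x1) :=
  (e19 H x0 (n x1)).symm.trans
    ((congrArg (fun h => (r x0 h)) (e40 H x1)))
lemma e47 (H : Ax l r n m) (x0 x1 x2 : A) : (r (m x0 x1) x2) = (r x0 (r x2 x1)) :=
  (congrArg (fun h => (r h x2)) (e19 H x0 x1).symm).trans
    ((congrArg (fun h => (r (r x0 h) x2)) (e39 H x1).symm).trans
    ((e13 H x0 (l x1 x1) x1 x2).trans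
    ((congrArg (fun h => (r x0 (r x2 h))) (e28 H x1 x1)).trans
    ((congrArg (fun h => (r x0 (r x2 h))) (e29 H x1))))))
lemma e53 (H : Ax l r n m) (x0 x1 : A) : (m (n x0) (l x1 x1)) = (l (m x1 x0) x1) :=
  (e28 H (n x0) x1).symm.trans
    ((e32 H x0 x1 x1))
lemma e54 (H : Ax l r n m) (x0 x1 x2 : A) : (l x0 (l (n x1) x2)) = (l (l x1 x0) x2) :=
  (e31 H (n x1) x0 x2).symm.trans
    ((congrArg (fun h => (l (l h x0) x2)) (e40 H x1)))
lemma e55 (H : Ax l r n m) (x0 x1 x2 : A) : (r x0 (r (n x1) x2)) = (m (m x0 x2) x1) :=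
  (e47 H x0 x2 (n x1)).symm.trans
    ((e19 H (m x0 x2) x1))
lemma e56 (H : Ax l r n m) (x0 x1 : A) : (r x0 (m x1 (l x0 x0))) = (r x0 x1) :=
  (congrArg (fun h => (r x0 h)) (e28 H x1 x0).symm).trans
    ((e47 H x0 (l x0 x0) x1).symm.trans
    ((congrArg (fun h => (r h x1)) (e29 H x0))))
lemma e58 (H : Ax l r n m) (x0 x1 : A) : (m x0 (m (n x1) x1)) = (m (r x0 x1) x1) :=
  (congrArg (fun h => (m x0 h)) (e19 H (n x1) x1).symm).trans
    ((e23 H x0 (n x1)).symm.trans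
    ((e55 H x0 x1 (n x1)).trans
    ((congrArg (fun h => (m h x1)) (e42 H x0 x1)))))
lemma e59 (H : Ax l r n m) (x0 x1 : A) : (r x0 (l (m x0 x1) x0)) = (m x0 x1) :=
  (congrArg (fun h => (r x0 h)) (e53 H x1 x0).symm).trans
    ((e56 H x0 (n x1)).trans
    ((e19 H x0 x1)))
lemma e60 (H : Ax l r n m) (x0 x1 : A) : (l (m (r x0 x0) x1) x0) = (m (n x1) x0) :=
  (e32 H x1 x0 (r x0 x0)).symm.trans
    ((congrArg (fun h => (r (n x1) h)) (e18 H x0)).trans
    ((e19 H (n x1) x0)))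
lemma e61 (H : Ax l r n m) (x0 : A) : (m (n x0) x0) = (l x0 x0) :=
  (e60 H x0 x0).symm.trans
    ((congrArg (fun h => (l h x0)) (e26 H x0)))
lemma e62 (H : Ax l r n m) (x0 x1 : A) : (m (r x0 x1) x1) = (m x0 (l x1 x1)) :=
  (e58 H x0 x1).symm.trans
    ((congrArg (fun h => (m x0 h)) (e61 H x1)))
lemma e63 (H : Ax l r n m) (x0 : A) : (l (n x0) (n x0)) = (r x0 x0) :=
  (e61 H (n x0)).symm.trans
    ((congrArg (fun h => (m h (n x0))) (e40 H x0)).trans
    ((e42 H x0 x0)))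
lemma e65 (H : Ax l r n m) (x0 x1 : A) : (r (n x0) (r x1 x0)) = (r (l x0 x0) x1) :=
  (e47 H (n x0) x0 x1).symm.trans
    ((congrArg (fun h => (r h x1)) (e61 H x0)))
lemma e66 (H : Ax l r n m) (x0 x1 : A) : (l (n x0) (l x0 x1)) = (r x0 (l x1 x0)) :=
  (e31 H x0 (n x0) x1).symm.trans
    ((congrArg (fun h => (l h x1)) (e63 H x0)).trans
    ((e10 H x0 x0 x1)))
lemma e67 (H : Ax l r n m) (x0 x1 : A) : (l (l x0 x1) (n x0)) = (l x1 (r x0 x0)) :=
  (e54 H x1 x0 (n x0)).symm.trans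
    ((congrArg (fun h => (l x1 h)) (e63 H x0)))
lemma e68 (H : Ax l r n m) (x0 x1 : A) : (l x0 (r x1 x1)) = (r (l x0 x1) x1) :=
  (congrArg (fun h => (l x0 h)) (e35 H x1).symm).trans
    ((congrArg (fun h => (l x0 h)) (e23 H (r x1 x1) x1).symm).trans
    ((e67 H (r x1 x1) x0).symm.trans
    ((congrArg (fun h => (l (l (r x1 x1) x0) h)) (e20 H x1)).trans
    ((congrArg (fun h => (l h (r x1 x1))) (e10 H x1 x1 x0)).trans
    ((e10 H x1 (l x0 x1) (r x1 x1)).trans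
    ((congrArg (fun h => (r (l x0 x1) h)) (e10 H x1 x1 x1)).trans
    ((congrArg (fun h => (r (l x0 x1) h)) (e28 H x1 x1)).trans
    ((congrArg (fun h => (r (l x0 x1) h)) (e29 H x1))))))))))
lemma e69 (H : Ax l r n m) (x0 x1 : A) : (l (l x0 x1) (n x0)) = (r (l x1 x0) x0) :=
  (e67 H x0 x1).trans
    ((e68 H x1 x0))
lemma e71 (H : Ax l r n m) (x0 x1 : A) : (l x0 (r x0 (l x1 x0))) = (l x0 x1) :=
  (congrArg (fun h => (l h (r x0 (l x1 x0)))) (e40 H x0).symm).trans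
    ((congrArg (fun h => (l (n (n x0)) h)) (e66 H x0 x1).symm).trans
    ((e66 H (n x0) (l x0 x1)).trans
    ((congrArg (fun h => (r (n x0) h)) (e69 H x0 x1)).trans
    ((e65 H x0 (l x1 x0)).trans
    ((e25 H x0 x1))))))
lemma e72 (H : Ax l r n m) (x0 x1 : A) : (n (l x0 x1)) = (l x1 x0) :=
  (e39 H (l x0 x1)).symm.trans
    ((e68 H (l x0 x1) (l x0 x1)).symm.trans
    ((congrArg (fun h => (l (l x0 x1) (r (l x0 x1) h))) (e36 H x0 x1).symm).trans
    ((e71 H (l x0 x1) (l x0 x0)).trans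
    ((e17 H x0 x1)))))
lemma e73 (H : Ax l r n m) (x0 x1 x2 : A) : (r x0 (l x1 x2)) = (m x0 (l x2 x1)) :=
  (congrArg (fun h => (r x0 h)) (e72 H x2 x1).symm).trans
    ((e19 H x0 (l x2 x1)))
lemma e74 (H : Ax l r n m) (x0 x1 x2 : A) : (l (r x0 x1) x2) = (m x1 (l x0 x2)) :=
  (e10 H x0 x1 x2).trans
    ((e73 H x1 x2 x0))
lemma e75 (H : Ax l r n m) (x0 x1 : A) : (m (l x0 x0) (l x0 x1)) = (l x0 x1) :=
  (e73 H (l x0 x0) x1 x0).symm.trans
    ((e25 H x0 x1))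
lemma e76 (H : Ax l r n m) (x0 x1 x2 : A) : (m (n x0) (l x1 x2)) = (l (m x1 x0) x2) :=
  (e73 H (n x0) x2 x1).symm.trans
    ((e32 H x0 x2 x1))
lemma e77 (H : Ax l r n m) (x0 x1 : A) : (m x0 (l x0 (m x0 x1))) = (m x0 x1) :=
  (e73 H x0 (m x0 x1) x0).symm.trans
    ((e59 H x0 x1))
lemma e78 (H : Ax l r n m) (x0 x1 : A) : (l (n x0) (l x0 x1)) = (m x0 (l x0 x1)) :=
  (e66 H x0 x1).trans
    ((e73 H x0 x1 x0))
lemma e81 (H : Ax l r n m) (x0 x1 : A) : (m (l x0 x1) (l x1 x1)) = (l x0 x1) :=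
  (e73 H (l x0 x1) x1 x1).symm.trans
    ((congrArg (fun h => (r h (l x1 x1))) (e17 H x1 x0).symm).trans
    ((e69 H (l x1 x1) (l x1 x0)).symm.trans
    ((congrArg (fun h => (l h (n (l x1 x1)))) (e36 H x1 x0)).trans
    ((congrArg (fun h => (l (l x1 x0) h)) (e72 H x1 x1)).trans
    ((e17 H x1 x0))))))
lemma e83 (H : Ax l r n m) (x0 x1 x2 : A) : (n (m x0 (l x1 x2))) = (l x2 (r x1 x0)) :=
  (congrArg (fun h => (n h)) (e74 H x1 x0 x2).symm).trans
    ((e72 H (r x1 x0) x2))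
lemma e84 (H : Ax l r n m) (x0 x1 : A) : (m x0 (l x0 (r x0 x1))) = (r x0 x1) :=
  (congrArg (fun h => (m x0 (l x0 h))) (e42 H x0 x1).symm).trans
    ((e77 H x0 (n x1)).trans
    ((e42 H x0 x1)))
lemma e85 (H : Ax l r n m) (x0 x1 : A) : (n (r x0 x1)) = (r x1 x0) :=
  (congrArg (fun h => (n h)) (e84 H x0 x1).symm).trans
    ((e83 H x0 x0 (r x0 x1)).trans
    ((e68 H (r x0 x1) x0).trans
    ((congrArg (fun h => (r h x0)) (e74 H x0 x1 x0)).trans
    ((e47 H x1 (l x0 x0) x0).trans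
    ((congrArg (fun h => (r x1 h)) (e73 H x0 x0 x0)).trans
    ((congrArg (fun h => (r x1 h)) (e29 H x0))))))))
lemma e86 (H : Ax l r n m) (x0 x1 : A) : (r (n x0) x1) = (n (m x1 x0)) :=
  (e85 H x1 (n x0)).symm.trans
    ((congrArg (fun h => (n h)) (e19 H x1 x0)))
lemma e87 (H : Ax l r n m) (x0 x1 x2 : A) : (m (m x0 x1) x2) = (m x0 (m x1 x2)) :=
  (e55 H x0 x2 x1).symm.trans
    ((congrArg (fun h => (r x0 h)) (e86 H x2 x1)).trans
    ((e19 H x0 (m x1 x2))))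
lemma e90 (H : Ax l r n m) (x0 x1 : A) : (n (m (n x0) x1)) = (m (n x1) x0) :=
  (e86 H x1 (n x0)).symm.trans
    ((e19 H (n x1) x0))
lemma e91 (H : Ax l r n m) (x0 x1 x2 : A) : (r x0 (r x1 x2)) = (m x0 (r x2 x1)) :=
  (congrArg (fun h => (r x0 h)) (e85 H x2 x1).symm).trans
    ((e19 H x0 (r x2 x1)))
lemma e92 (H : Ax l r n m) (x0 x1 x2 : A) : (r (m x0 x1) x2) = (m x0 (r x1 x2)) :=
  (e47 H x0 x1 x2).trans
    ((e91 H x0 x2 x1))
lemma e93 (H : Ax l r n m) (x0 x1 x2 : A) : (l x0 (r x1 x2)) = (r (l x0 x1) x2) :=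
  (e83 H x2 x1 x0).symm.trans
    ((congrArg (fun h => (n h)) (e73 H x2 x0 x1).symm).trans
    ((e85 H x2 (l x0 x1))))
lemma e95 (H : Ax l r n m) (x0 x1 x2 : A) : (l x0 (m x1 x2)) = (m (l x0 x1) x2) :=
  (e72 H (m x1 x2) x0).symm.trans
    ((congrArg (fun h => (n h)) (e76 H x2 x1 x0).symm).trans
    ((e90 H x2 (l x1 x0)).trans
    ((congrArg (fun h => (m h x2)) (e72 H x1 x0)))))
lemma e96 (H : Ax l r n m) (x0 x1 : A) : (m x0 (m (l x0 x0) x1)) = (m x0 x1) :=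
  (congrArg (fun h => (m x0 h)) (e95 H x0 x0 x1).symm).trans
    ((e77 H x0 x1))
lemma e97 (H : Ax l r n m) (x0 x1 : A) : (m (n (m x0 x1)) x0) = (l (m x0 x1) x0) :=
  (congrArg (fun h => (m h x0)) (e86 H x1 x0).symm).trans
    ((e62 H (n x1) x0).trans
    ((e76 H x1 x0 x0)))
lemma e101 (H : Ax l r n m) (x0 x1 : A) : (m (n x0) (m x0 x1)) = (m (l x0 x0) x1) :=
  (e87 H (n x0) x0 x1).symm.trans
    ((congrArg (fun h => (m h x1)) (e61 H x0)))
lemma e106 (H : Ax l r n m) (x0 x1 : A) : (m x0 (l (l x0 x0) x1)) = (l (n x0) x1) :=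
  (e74 H (l x0 x0) x0 x1).symm.trans
    ((congrArg (fun h => (l h x1)) (e39 H x0)))
lemma e119 (H : Ax l r n m) (x0 x1 : A) : (r (l (l x0 x0) x1) x1) = (m x1 (l x1 (l x0 x0))) :=
  (e93 H (l x0 x0) x1 x1).symm.trans
    ((congrArg (fun h => (l (l x0 x0) h)) (e63 H x1).symm).trans
    ((e15 H (n x1) x0).symm.trans
    ((congrArg (fun h => (l h (l x0 x0))) (e63 H x1)).trans
    ((e74 H x1 x1 (l x0 x0))))))
lemma e127 (H : Ax l r n m) (x0 x1 x2 x3 : A) : (l (m x0 (r x1 x2)) x3) = (m (r x2 x1) (l x0 x3)) :=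
  (e76 H (r x1 x2) x0 x3).symm.trans
    ((congrArg (fun h => (m h (l x0 x3))) (e85 H x1 x2)))
lemma e131 (H : Ax l r n m) (x0 x1 x2 x3 : A) : (m (r x0 x1) (l x2 x3)) = (m x0 (l (m x2 x1) x3)) :=
  (e127 H x2 x1 x0 x3).symm.trans
    ((congrArg (fun h => (l h x3)) (e92 H x2 x1 x0).symm).trans
    ((e74 H (m x2 x1) x0 x3)))
lemma e134 (H : Ax l r n m) (x0 x1 x2 x3 : A) : (l (m x0 (r x1 x2)) x3) = (m x2 (l (m x0 x1) x3)) :=
  (e127 H x0 x1 x2 x3).trans
    ((e131 H x2 x1 x0 x3))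
lemma e137 (H : Ax l r n m) (x0 x1 : A) : (m x0 (l (m (r x1 x1) x0) x0)) = (m (r x1 x1) x0) :=
  (e134 H (r x1 x1) x0 x0 x0).symm.trans
    ((congrArg (fun h => (l h x0)) (e24 H x0 x1).symm).trans
    ((e60 H x0 (r x1 x1)).trans
    ((congrArg (fun h => (m h x0)) (e85 H x1 x1)))))
lemma e144 (H : Ax l r n m) (x0 x1 x2 : A) : (m (l x0 x0) (m (l x0 x1) x2)) = (m (l x0 x1) x2) :=
  (e87 H (l x0 x0) (l x0 x1) x2).symm.trans
    ((congrArg (fun h => (m h x2)) (e75 H x0 x1)))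
lemma e159 (H : Ax l r n m) (x0 x1 x2 x3 : A) : (m (l x0 (n x1)) (l x2 x3)) = (l x0 (l (m x2 x1) x3)) :=
  (e95 H x0 (n x1) (l x2 x3)).symm.trans
    ((congrArg (fun h => (l x0 h)) (e76 H x1 x2 x3)))
lemma e168 (H : Ax l r n m) (x0 x1 : A) : (m x0 (m (l x0 (l x1 x1)) x0)) = (l (l x1 x1) x0) :=
  (e87 H x0 (l x0 (l x1 x1)) x0).symm.trans
    ((congrArg (fun h => (m h x0)) (e119 H x1 x0).symm).trans
    ((e62 H (l (l x1 x1) x0) x0).trans
    ((e81 H (l x1 x1) x0))))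
lemma e169 (H : Ax l r n m) (x0 x1 : A) : (l x0 (l (l x1 x1) x0)) = (m (l x0 (l x1 x1)) x0) :=
  (e16 H x1 x1 x0 x0).symm.trans
    ((congrArg (fun h => (l h x0)) (e168 H x0 x1).symm).trans
    ((e97 H x0 (m (l x0 (l x1 x1)) x0)).symm.trans
    ((congrArg (fun h => (m (n h) x0)) (e168 H x0 x1)).trans
    ((congrArg (fun h => (m h x0)) (e72 H (l x1 x1) x0))))))
lemma e170 (H : Ax l r n m) (x0 x1 : A) : (l (m (l x0 x0) x1) x1) = (m (l x1 (l x0 x0)) x1) :=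
  (e76 H x1 (l x0 x0) x1).symm.trans
    ((congrArg (fun h => (m (n x1) h)) (e168 H x1 x0).symm).trans
    ((e101 H x1 (m (l x1 (l x0 x0)) x1)).trans
    ((e144 H x1 (l x0 x0) x1))))
lemma e171 (H : Ax l r n m) (x0 x1 : A) : (m (r (l x0 x1) x1) x0) = (m (l x0 x1) (l x1 x0)) :=
  (congrArg (fun h => (m h x0)) (e93 H x0 x1 x1).symm).trans
    ((congrArg (fun h => (m (l x0 h) x0)) (e63 H x1).symm).trans
    ((e169 H x0 (n x1)).symm.trans
    ((congrArg (fun h => (l x0 h)) (e31 H x1 (n x1) x0)).trans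
    ((congrArg (fun h => (l x0 h)) (e78 H x1 x0)).trans
    ((e95 H x0 x1 (l x1 x0)))))))
lemma e172 (H : Ax l r n m) (x0 x1 : A) : (l (m (r x0 x0) x1) x1) = (m (l x1 x0) (l x0 x1)) :=
  (congrArg (fun h => (l (m h x1) x1)) (e63 H x0).symm).trans
    ((e170 H (n x0) x1).trans
    ((congrArg (fun h => (m (l x1 h) x1)) (e63 H x0)).trans
    ((congrArg (fun h => (m h x1)) (e93 H x1 x0 x0)).trans
    ((e171 H x1 x0)))))
lemma e173 (H : Ax l r n m) (x0 x1 : A) : (m x0 (m (l x0 x1) (l x1 x0))) = (m (r x1 x1) x0) :=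
  (congrArg (fun h => (m x0 h)) (e172 H x1 x0).symm).trans
    ((e137 H x0 x1))
lemma e174 (H : Ax l r n m) (x0 x1 : A) : (l (l x0 x0) x1) = (m (l x0 x0) x1) :=
  (e168 H x1 x0).symm.trans
    ((congrArg (fun h => (m x1 h)) (e169 H x1 x0).symm).trans
    ((congrArg (fun h => (m x1 (l x1 (l h x1)))) (e61 H x0).symm).trans
    ((congrArg (fun h => (m x1 h)) (e159 H x1 x0 (n x0) x1).symm).trans
    ((e173 H x1 (n x0)).trans
    ((congrArg (fun h => (m h x1)) (e19 H (n x0) x0)).trans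
    ((congrArg (fun h => (m h x1)) (e61 H x0))))))))
lemma e176 (H : Ax l r n m) (x0 x1 : A) : (l (n x0) x1) = (m x0 x1) :=
  (e106 H x0 x1).symm.trans
    ((congrArg (fun h => (m x0 h)) (e174 H x0 x1)).trans
    ((e96 H x0 x1)))
lemma e180 (H : Ax l r n m) (x0 x1 x2 : A) : (l (m x0 x1) x2) = (l x1 (l x0 x2)) :=
  (congrArg (fun h => (l h x2)) (e176 H x0 x1).symm).trans
    ((e31 H x0 x1 x2))
lemma e181 (H : Ax l r n m) (x0 x1 : A) : (m (n x0) x1) = (l x0 x1) :=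
  (e60 H x1 x0).symm.trans
    ((e180 H (r x1 x1) x0 x1).trans
    ((congrArg (fun h => (l x0 h)) (e74 H x1 x1 x1)).trans
    ((congrArg (fun h => (l x0 h)) (e29 H x1)))))
lemma g0 (a b c : A) (H : Ax l r n m) : (m (m a b) c) = (m a (m b c)) :=
  (e87 H a b c)
lemma g1 (a : A) (H : Ax l r n m) : (m (m a (n a)) a) = a :=
  (congrArg (fun h => (m h a)) (e42 H a a)).trans
    ((e26 H a))
lemma g2 (a : A) (H : Ax l r n m) : (n (n a)) = a :=
  (e40 H a)
lemma g3 (a b : A) (H : Ax l r n m) : (n (m a b)) = (m (n b) (n a)) :=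
  (e86 H b a).symm.trans
    ((e42 H (n b) a).symm)
lemma g4 (a b : A) (H : Ax l r n m) : (m (m a (n a)) (m b (n b))) = (m (m b (n b)) (m a (n a))) :=
  (congrArg (fun h => (m h (m b (n b)))) (e42 H a a)).trans
    ((congrArg (fun h => (m (r a a) h)) (e42 H b b)).trans
    ((e24 H b a).symm.trans
    ((congrArg (fun h => (m (r b b) h)) (e42 H a a).symm).trans
    ((congrArg (fun h => (m h (m a (n a)))) (e42 H b b).symm)))))
lemma g5 (a b : A) (H : Ax l r n m) : (l a b) = (m (n a) b) :=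
  (e181 H a b).symm
lemma g6 (a b : A) (H : Ax l r n m) : (r a b) = (m a (n b)) :=
  (e42 H a b).symm

lemma isDiv (H0 : Ax0 l r) : IsDiv l r := by
  have H : Ax l r (fun x => l x (r x x)) (fun x y => r x (l y (r y y))) :=
    ⟨H0, fun _ => rfl, fun _ _ => rfl⟩
  generalize (fun x => l x (r x x)) = n at H
  generalize (fun x y => r x (l y (r y y))) = m at H
  let _ : Semigroup A := { mul := m, mul_assoc := fun a b c => g0 a b c H }
  have h1 : ∀ a, a * n a * a = a := fun a => g1 a H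
  have h2 : ∀ a, n (n a) = a := fun a => g2 a H
  have h3 : ∀ a b, n (a * b) = n b * n a := fun a b => g3 a b H
  have h4 : ∀ a b, a * n a * (b * n b) = b * n b * (a * n a) := fun a b => g4 a b H
  have h5 : ∀ a, n a * a * n a = n a := fun a => by simpa [h2] using h1 (n a)
  have h6 : ∀ e, e * e = e → e * n e = e := fun e he => by
    have : n e = e := calc
      n e = n e * n (n e) * (e * n e) := by rw [h2, ← mul_assoc, mul_assoc (n e) e e, he, h5]
      _ = e * n (e * e) * e := by rw [h4, h2, h3]; simp only [mul_assoc]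
      _ = e := by rw [he, h1]
    rw [this, he]
  have h7 : ∀ e f : A, e * e = e → f * f = f → e * f = f * e := fun e f he hf => by
    have := h4 e f
    rwa [h6 e he, h6 f hf] at this
  refine ⟨_, n, fun x y => ⟨?_, ?_⟩, fun a b => g5 a b H, fun a b => g6 a b H⟩
  · rintro ⟨e1, e2⟩
    have a1 := h7 (y * x) (n x * x) (by rw [← mul_assoc, e2]) (by rw [← mul_assoc, h5])
    have a2 := h7 (x * y) (x * n x) (by rw [← mul_assoc, e1]) (by rw [← mul_assoc, h1])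
    calc y = y * (x * n x * x) * y := by rw [h1, e2]
      _ = y * x * (n x * x) * y := by simp only [mul_assoc]
      _ = n x * x * (y * x * y) := by rw [a1]; simp only [mul_assoc]
      _ = n x * x * n x * x * y := by rw [e2, h5]
      _ = n x * (x * n x * (x * y)) := by simp only [mul_assoc]
      _ = n x * (x * y * x) * n x := by rw [← a2]; simp only [mul_assoc]
      _ = n x := by rw [e1, h5]
  · rintro rfl
    exact ⟨h1 x, h5 x⟩

lemma ax0 (h : IsDiv l r) : Ax0 l r := by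
  obtain ⟨_, n, h, hl, hr⟩ := h
  have h1 : ∀ a, a * n a * a = a := fun a => ((h a _).2 rfl).1
  have h5 : ∀ a, n a * a * n a = n a := fun a => ((h a _).2 rfl).2
  have h2 : ∀ a, n (n a) = a := fun a => ((h _ _).1 ⟨h5 a, h1 a⟩).symm
  have h6 : ∀ e, e * e = e → e = n e := fun e he => (h e e).1 (by simp [he])
  have h8 : ∀ e f : A, e * e = e → f * f = f → e * f * (e * f) = e * f := fun e f he hf => by
    have he' : ∀ x, e * (e * x) = e * x := fun x => by rw [← mul_assoc, he]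
    have hf' : ∀ x, f * (f * x) = f * x := fun x => by rw [← mul_assoc, hf]
    have b1 := h1 (e * f)
    have b2 := h5 (e * f)
    have b3 : f * n (e * f) * e = n (e * f) := (h _ _).1 ⟨by
      simpa only [mul_assoc, he', hf'] using b1, by
      simpa only [mul_assoc, he', hf'] using congrArg (fun t => f * t * e) b2⟩
    have b4 : n (e * f) * n (e * f) = n (e * f) := by
      conv_lhs => rw [← b3]
      conv_rhs => rw [← b3, ← b2]
      simp only [mul_assoc]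
    have b5 := h6 _ b4
    rw [h2] at b5
    rwa [b5] at b4
  have h7 : ∀ e f : A, e * e = e → f * f = f → e * f = f * e := fun e f he hf => by
    have he' : ∀ x, e * (e * x) = e * x := fun x => by rw [← mul_assoc, he]
    have hf' : ∀ x, f * (f * x) = f * x := fun x => by rw [← mul_assoc, hf]
    rw [h6 _ (h8 e f he hf)]
    exact ((h _ _).1 ⟨by simpa only [mul_assoc, he', hf'] using h8 e f he hf,
      by simpa only [mul_assoc, he', hf'] using h8 f e hf he⟩).symm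
  have i1 : ∀ a, a * n a * (a * n a) = a * n a := fun a => by rw [← mul_assoc, h1]
  have i2 : ∀ a, n a * a * (n a * a) = n a * a := fun a => by rw [← mul_assoc, h5]
  have h3 : ∀ a b, n (a * b) = n b * n a := fun a b => by
    have c := h7 _ _ (i1 b) (i2 a)
    refine ((h _ _).1 ⟨?_, ?_⟩).symm
    · calc _ = a * (b * n b * (n a * a)) * b := by simp only [mul_assoc]
        _ = (a * n a * a) * (b * n b * b) := by rw [c]; simp only [mul_assoc]
        _ = _ := by rw [h1, h1]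
    · calc _ = n b * (n a * a * (b * n b)) * n a := by simp only [mul_assoc]
        _ = (n b * b * n b) * (n a * a * n a) := by rw [← c]; simp only [mul_assoc]
        _ = _ := by rw [h5, h5]
  refine ⟨?_, ?_, ?_, ?_, ?_, ?_, ?_, ?_⟩ <;> intros <;> simp only [hl, hr, h3, h2]
  · rw [mul_assoc]
  · rw [h1]
  · exact h7 _ _ (i1 _) (i1 _)
  · simp only [mul_assoc]
  · rw [← mul_assoc, h1]
  · exact h7 _ _ (i2 _) (i2 _)
  · simp only [mul_assoc]
  · rw [mul_assoc, ← mul_assoc _ (n _), h1]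
end

open Tm in
def E : Set (Tm × Tm) :=
  {(L (R (v 0) (v 1)) (v 2), R (v 1) (L (v 2) (v 0))), (L (R (v 0) (v 0)) (v 0), v 0),
   (R (R (v 0) (v 0)) (R (v 1) (v 1)), R (R (v 1) (v 1)) (R (v 0) (v 0))),
   (R (v 0) (R (v 1) (R (v 2) (v 3))), R (R (v 0) (R (v 3) (v 2))) (v 1)),
   (R (R (v 0) (v 0)) (R (v 1) (v 0)), R (v 0) (v 1)),
   (L (L (v 0) (v 0)) (L (v 1) (v 1)), L (L (v 1) (v 1)) (L (v 0) (v 0))),
   (L (L (L (v 0) (v 1)) (v 2)) (v 3), L (v 2) (L (L (v 1) (v 0)) (v 3))),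
   (L (L (v 0) (v 1)) (L (v 0) (v 0)), L (v 1) (v 0))}

theorem result : ∃ E : Set (Tm × Tm), E.Finite ∧ {e ∈ E | Mixed e}.encard ≤ 2 ∧
    ∀ (S : Type) (l r : S → S → S), (∀ e ∈ E, ∀ a, e.1.eval l r a = e.2.eval l r a) ↔ IsDiv l r := by
  refine ⟨E, by unfold E; exact Set.toFinite _, ?_, fun S l r => ?_⟩
  · refine (Set.encard_le_encard (t := {(.L (.R (.v 0) (.v 1)) (.v 2), .R (.v 1) (.L (.v 2) (.v 0))),
      (.L (.R (.v 0) (.v 0)) (.v 0), .v 0)}) fun e he => ?_).trans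
      ((Set.encard_insert_le _ _).trans (by rw [Set.encard_singleton]; rfl))
    · obtain ⟨h1 | h1 | h1, h2⟩ := he
      · exact .inl h1
      · exact .inr h1
      · simp only [Set.mem_insert_iff, Set.mem_singleton_iff] at h1
        rcases h1 with rfl | rfl | rfl | rfl | rfl | rfl <;> simp [Mixed, Tm.hasL, Tm.hasR] at h2
  · simp only [E, Set.mem_insert_iff, Set.mem_singleton_iff, forall_eq_or_imp, forall_eq, Tm.eval]
    constructor
    · rintro ⟨h0, h1, h2, h3, h4, h5, h6, h7⟩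
      exact isDiv ⟨fun x y z => h0 ([x, y, z].getD · x), fun x => h1 fun _ => x,
        fun x y => h2 ([x, y].getD · x), fun x y z w => h3 ([x, y, z, w].getD · x),
        fun x y => h4 ([x, y].getD · x), fun x y => h5 ([x, y].getD · x),
        fun x y z w => h6 ([x, y, z, w].getD · x), fun x y => h7 ([x, y].getD · x)⟩
    · intro h
      have H := ax0 h
      exact ⟨fun _ => H.a0 .., fun _ => H.a1 _, fun _ => H.a2 .., fun _ => H.a3 .., fun _ => H.a4 ..,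
        fun _ => H.a5 .., fun _ => H.a6 .., fun _ => H.a7 ..⟩

end Pool.Agent.Results.MP_cc6d20_al.SemiSep
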